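import Pool.Agent.H71.CR.Stmt

/-! Row FNL: the situation is contradictory. -/

set_option autoImplicit false

open Set Pool.Agent.TK Pool.Agent.H71.VK

namespace Pool.Agent.CR

/-- FNL: the situation is contradictory. -/
theorem pf_FNL (hREX : T_REX) (hFAR : T_FAR) (hKPA : T_KPA) (hKPB : T_KPB) : T_FNL := by
  intro n c Sm G π B S L F hs
  classical
  have bt := hs.bt
  have bs := bt.bs
  obtain ⟨u, hu⟩ := bs.mob
  have hBS : B ⊆ S := bt.sub
  have hSZ : S ⊆ S ++ F.flatten := List.subset_append_left _ _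
  have hBZ : B ⊆ S ++ F.flatten := fun a ha => hSZ (hBS ha)
  have hdlZ : dl π ⊆ S ++ F.flatten := fun a ha => hBZ (bs.dlB ha)
  have hLS : ∀ a ∈ L, a ∈ S := fun a ha => ((hs.L1 a).1 ha).1
  have hLst : ∀ a ∈ L, a ∈ st c π := fun a ha => ((hs.L1 a).1 ha).2
  have hLZ : L ⊆ S ++ F.flatten := fun a ha => hSZ (hLS a ha)
  have hFZ : F.flatten ⊆ S ++ F.flatten := List.subset_append_right _ _
  -- independent far mobile points
  have hex : ∀ l : List ℕ, ∃ v, (G.Mb π B [v] ∧ G.Mb π (S ++ F.flatten) [v] ∧ G.In B S [v]) ∧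
      ∀ w ∈ l, G.In B [w] [v] := by
    intro l
    obtain ⟨w', h1, _, h3, h4, h5⟩ := hFAR n c Sm G π B bs.dlB [u] hu ((S ++ F.flatten) ++ l)
    obtain ⟨v, rfl⟩ : ∃ v, w' = [v] := List.length_eq_one_iff.1 (by simpa using h1.symm)
    have hin : ∀ X : List ℕ, X ⊆ (S ++ F.flatten) ++ l → G.In B X [v] := by
      intro X hX j hj hj'
      refine h4 j (G.mono _ _ ?_ hj) hj'
      intro a ha
      rcases List.mem_append.1 ha with h | h
      · exact List.mem_append_left _ (hX h)
      · exact List.mem_append_right _ h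
    refine ⟨v, ⟨h3, h5 _ hBZ ?_, hin S ?_⟩, ?_⟩
    · intro a ha
      exact List.mem_append_left _ (List.mem_append_left _ ha)
    · intro a ha
      exact List.mem_append_left _ (List.mem_append_left _ ha)
    · intro w hw
      refine hin [w] ?_
      intro a ha
      rw [List.mem_singleton] at ha
      rw [ha]
      exact List.mem_append_right _ hw
  -- far mobile points are outside of the parameters
  have hUr : ∀ a, G.Mb π B [a] → G.In B S [a] → a ∈ Ur (st c π) (L ++ zl π) := by
    intro a hm hi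
    have h1 := hm a List.mem_cons_self
    refine ⟨h1.1, fun h2 => ?_⟩
    rcases List.mem_append.1 h2 with h3 | h3
    · refine h1.2 fun j hj => hi j (G.mono _ _ ?_ hj) hj
      intro b hb
      rcases List.mem_cons.1 hb with rfl | hb
      · exact List.mem_append_left _ (hLS _ h3)
      · exact List.mem_append_right _ hb
    · exact zl_disj bs.vd a h3 h1.1
  have hFm : ∀ e ∈ F, ∀ a ∈ e, a ∈ Ur (st c π) (L ++ zl π) := by
    intro e he a ha
    obtain ⟨h1, h2⟩ := hs.F1 e he
    refine hUr a ?_ ?_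
    · intro b hb
      rw [List.mem_singleton] at hb
      rw [hb]
      exact h1.mb a ha
    · intro j hj hj'
      refine h2 j hj (G.mono _ _ ?_ hj')
      intro b hb
      rcases List.mem_append.1 hb with h | h
      · rw [List.mem_singleton] at h
        rw [h]
        exact List.mem_append_left _ ha
      · exact List.mem_append_right _ h
  have hvdR : ∀ v, G.Mb π B [v] → G.In B S [v] →
      ∃ R : List ℕ, Vd c ((L, F, ([v], R), true) :: π) := by
    intro v hm hi
    have h1 : ∀ a ∈ [v], a ∈ Ur (st c π) (L ++ zl π) := by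
      intro a ha
      rw [List.mem_singleton] at ha
      rw [ha]
      exact hUr v hm hi
    obtain ⟨R, hR⟩ := hREX n c G.lb (st c π) (L ++ zl π) F [v] h1
    exact ⟨R, vd_cons.2 ⟨bs.vd, hLst, hFm, h1, hR⟩⟩
  have hst : ∀ (v : ℕ) (R : List ℕ), G.Mb π B [v] → G.In B S [v] →
      st c ((L, F, ([v], R), true) :: π) = Kp c π L F v := by
    intro v R hm hi
    rw [st_true, cl_snd [v] R []]
    exact (hKPA n c Sm G π B S L F hs v hm hi).2.2.2.1
  -- a small component
  obtain ⟨v, R, hv, hvd, hsm⟩ : ∃ (v : ℕ) (R : List ℕ),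
      (G.Mb π B [v] ∧ G.Mb π (S ++ F.flatten) [v] ∧ G.In B S [v]) ∧
      Vd c ((L, F, ([v], R), true) :: π) ∧ Sm ((L, F, ([v], R), true) :: π) := by
    by_contra hcon
    push Not at hcon
    have hfin := G.fin π L F bs.vd
    let w : Set ℕ → ℕ := fun D => if h : ∃ v, (G.Mb π B [v] ∧ G.Mb π (S ++ F.flatten) [v] ∧
      G.In B S [v]) ∧ Kp c π L F v = D then h.choose else 0
    obtain ⟨v, hv, hl⟩ := hex (hfin.toFinset.toList.map w)
    obtain ⟨R, hR⟩ := hvdR v hv.1 hv.2.2
    have hex' : ∃ v', (G.Mb π B [v'] ∧ G.Mb π (S ++ F.flatten) [v'] ∧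
      G.In B S [v']) ∧ Kp c π L F v' = Kp c π L F v := ⟨v, hv, rfl⟩
    have hw : w (Kp c π L F v) = hex'.choose := dif_pos hex'
    have hK := hKPA n c Sm G π B S L F hs v hv.1 hv.2.2
    have hmem : w (Kp c π L F v) ∈ hfin.toFinset.toList.map w := by
      refine List.mem_map_of_mem ?_
      rw [Finset.mem_toList, Set.Finite.mem_toFinset]
      exact ⟨v, R, hR, hK.2.2.2.2, hcon v R hv hR, (hst v R hv.1 hv.2.2).symm⟩
    have hin := hl _ hmem
    rw [hw] at hin
    obtain ⟨hv', he⟩ := hex'.choose_spec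
    have hK' := hKPA n c Sm G π B S L F hs _ hv'.1 hv'.2.2
    have hvm : v ∈ Kp c π L F hex'.choose := by
      rw [he]
      exact Relation.ReflTransGen.refl
    have hsup := (hK'.1 v hvm).2.2
    refine (hv.1 v List.mem_cons_self).2 fun j hj => hin j ?_ hj
    change j ∈ G.sup (hex'.choose :: B)
    rw [← hsup]
    exact hj
  have hK := hKPA n c Sm G π B S L F hs v hv.1 hv.2.2
  have hstv := hst v R hv.1 hv.2.2
  refine (hv.2.1 v List.mem_cons_self).2
    (G.cmp π L F v R hvd hK.2.2.2.2 hsm (S ++ F.flatten) hdlZ hLZ hFZ ?_)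
  intro p hp hfix hnot
  have H := G.aut p hp
  have hpi : p.1 '' st c π = st c π := st_fix p.1 H fun a ha => hfix a (hdlZ ha)
  have hB : B.map p.1 = B := map_fix fun a ha => hfix a (hBZ ha)
  have hS : S.map p.1 = S := map_fix fun a ha => hfix a (hSZ ha)
  have hL : (L ++ zl π).map p.1 = L ++ zl π := map_fix fun a ha => by
    rcases List.mem_append.1 ha with h | h
    · exact hfix a (hLZ h)
    · exact hfix a (hdlZ (zl_sub_dl π h))
  have hF : F.map (List.map p.1) = F := by
    conv_rhs => rw [← List.map_id F]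
    refine List.map_congr_left fun e he => ?_
    exact map_fix fun a ha => hfix a (hFZ (List.mem_flatten.2 ⟨e, he, ha⟩))
  have hsB : ∀ j, j ∈ G.sup B ↔ p.2 j ∈ G.sup B := by
    intro j
    have h1 := G.eqv p hp B j
    rw [hB] at h1
    exact h1
  have hsS : ∀ j, j ∈ G.sup (S ++ B) ↔ p.2 j ∈ G.sup (S ++ B) := by
    intro j
    have h1 := G.eqv p hp (S ++ B) j
    rw [List.map_append, hB, hS] at h1
    exact h1
  have hsv : ∀ j, j ∈ G.sup (v :: B) ↔ p.2 j ∈ G.sup (p.1 v :: B) := by
    intro j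
    have h1 := G.eqv p hp (v :: B) j
    rw [List.map_cons, hB] at h1
    exact h1
  have hm' : G.Mb π B [p.1 v] := by
    intro a ha
    rw [List.mem_singleton] at ha
    rw [ha]
    refine ⟨?_, fun h => ?_⟩
    · rw [← hpi]
      exact ⟨v, (hv.1 v List.mem_cons_self).1, rfl⟩
    · refine (hv.1 v List.mem_cons_self).2 fun j hj => ?_
      rw [hsB]
      exact h ((hsv j).1 hj)
  have hi' : G.In B S [p.1 v] := by
    intro j hj hj'
    obtain ⟨i, rfl⟩ := p.2.surjective j
    rw [← hsB]
    refine hv.2.2 i ((hsS i).2 hj) ?_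
    exact (hsv i).2 hj'
  have hK' := hKPA n c Sm G π B S L F hs (p.1 v) hm' hi'
  have himg : p.1 '' st c ((L, F, ([v], R), true) :: π) = Kp c π L F (p.1 v) := by
    rw [hstv, ← hK.2.2.2.1, ← hK'.2.2.2.1]
    have h1 := cl_iso p.1 H (st c π) (L ++ zl π) F ([v], [])
    rw [hpi, hL, hF] at h1
    simp only [List.map_cons, List.map_nil] at h1
    exact h1.symm
  rw [hstv] at hnot
  rw [himg, hstv]
  exact hKPB n c Sm G π B S L F hs v (p.1 v) hv.1 hv.2.2 hm' hi' hnot

end Pool.Agent.CR
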